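import Pool.Agent.N856.QL.Main

/-!
# The joint Gaussian law of the orders of the Tate-Shafarevich groups over several real quadratic fields

`E_{-n}` is the twist by `-n` of the modular curve `X_0(15)` (no complex multiplication), `n` squarefree,
`n ≡ 23, 47` modulo `60`, and `K_d = ℚ(√d)` is a real quadratic field, `d > 1` squarefree, `d ≡ 1` modulo
`12`, `d ≡ ± 1` modulo `5`. For an arbitrary finite set `𝒟` of such `d`, `m = #𝒟`, we prove:

* For the `n` prime to the `d` in `𝒟` the proportion of those for which, over ALL the fields `K_d`,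
  the group `E_{-n}(K_d)` is finite, `L(E_{-n}/K_d, 1) ≠ 0`, `Ш(E_{-n}/K_d)[2^∞]` is finite, killed by two,
  of order exactly `4 ^ e_d`, `e_d = ω(d) + #{p ∣ n inert in K_d} - 2`, and the 2-part of the formula of
  Birch and Swinnerton-Dyer holds, is `η ^ (m + 1)`, `η = (1 - 1/2) (1 - 1/4) (1 - 1/8) ⋯`, and on this
  set the vector of the exponents `e_d` has a JOINT GAUSSIAN LAW: for every Borel set `A` of vectors whose
  boundary is a null set for the limit, the proportion of the `n ≤ X` with these properties and
  `((e_d - (log log X) / 2) / √(log log X))_d` in `A` tends to `η ^ (m + 1) P(Z ∈ A)`, where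
  `Z_d = (g₀ + g_d) / 2` with independent standard normal variables `g₀`, `g_d`.
* Each of the `m!` orderings of the orders of the groups `Ш(E_{-n}/K_d)[2^∞]`, `d` in `𝒟`, occurs (strictly,
  and together with all the properties above) with the natural density `η ^ (m + 1) / m!`.

So the 2-primary part of `Ш` is finite over all the fields for a positive proportion of the twists, and its
order is a random variable with an explicit law; the correlation of the exponents for two fields is `1/2`,
for all pairs of different fields.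

Proof. The exact criterion (`MP_e996df_nt.TwoPartTwistsX15Real`, project QB): the properties over `K_d` hold
iff `ℚ(√-n)` and `ℚ(√-nd)` have no ideal class of order four. The density machine (bilinear sums of
Jacobi symbols, random alternating matrices, `N916/AM`, `N856/JM`) is proved here for all the events that
depend on the numbers of the prime factors of `n` in the residue classes modulo any `M`, uniformly: such an
event is asymptotically independent of the class groups. The Gaussian law for the squarefree `n` in given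
classes is proved with characteristic functions (helper160, `N160/SN`, generalised to any modulus) and
Lévy's theorem. The orderings: helper681 (`N681/QL/ORD`); the moments of the symbols: helper755
(`N755/QL/MEAN`). The arithmetic: helpers named in `MP_e996df_nt.TwoPartTwistsX15Real`.
-/

set_option autoImplicit false

open NumberField IsDedekindDomain WeierstrassCurve MeasureTheory ProbabilityTheory Filter Topology

namespace Pool.Agent.Results.MP_78d38b_nt.JointLawOfOrders

open scoped Classical

open Pool.Agent.TH841.NF.D (Sha)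

/-- The curve given by the equation of `W` over the ring `R`. -/
abbrev base (W : WeierstrassCurve ℤ) (R : Type) [CommRing R] : WeierstrassCurve R :=
  W.map (Int.castRingHom R)

/-- The number of the affine points `(x, y)` over the ring `R`. -/
noncomputable def pts (W : WeierstrassCurve ℤ) (R : Type) [CommRing R] : ℕ :=
  Nat.card {P : R × R // (base W R).toAffine.Equation P.1 P.2}

section

variable {K : Type} [Field K] [NumberField K]

/-- `a_v = N v + 1 - #W(k_v)`, the points over the residue field `k_v` counted with the point at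
infinity. -/
noncomputable def a (W : WeierstrassCurve ℤ) (v : HeightOneSpectrum (𝓞 K)) : ℤ :=
  (Ideal.absNorm v.asIdeal : ℤ) - pts W (𝓞 K ⧸ v.asIdeal)

/-- The Euler factor of `L(W/K, s)` at `v` : `(1 - a_v N v^(-s) + N v^(1 - 2 s))⁻¹` if the
discriminant is a unit at `v`, and `(1 - a_v N v^(-s))⁻¹` otherwise. -/
noncomputable def factor (W : WeierstrassCurve ℤ) (s : ℂ) (v : HeightOneSpectrum (𝓞 K)) : ℂ :=
  (1 - (a W v : ℂ) * (Ideal.absNorm v.asIdeal : ℂ) ^ (-s) +
    if ((W.Δ : ℤ) : 𝓞 K) ∈ v.asIdeal then 0 else (Ideal.absNorm v.asIdeal : ℂ) ^ (1 - 2 * s))⁻¹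

/-- The equation is minimal at the finite place `v` of `K`: no change of variables over `K` that
keeps the coefficients integral at `v` decreases the valuation of the discriminant. -/
def MinimalAt (W : WeierstrassCurve ℤ) (v : HeightOneSpectrum (𝓞 K)) : Prop :=
  ∀ C : VariableChange K, v.valuation K (C • base W K).a₁ ≤ 1 →
    v.valuation K (C • base W K).a₂ ≤ 1 → v.valuation K (C • base W K).a₃ ≤ 1 →
    v.valuation K (C • base W K).a₄ ≤ 1 → v.valuation K (C • base W K).a₆ ≤ 1 →
    v.valuation K (C • base W K).Δ ≤ v.valuation K (base W K).Δ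

/-- `E⁰(K_v)`, the group of the points of `W` over the completion `K_v` with nonsingular reduction:
the points `(x, y)` where `x` is not integral, or one of the partial derivatives of
`y² + a₁ x y + a₃ y - x³ - a₂ x² - a₄ x - a₆` is a unit at `(x, y)`, and the point at infinity. -/
noncomputable def nonsing (W : WeierstrassCurve ℤ) (v : HeightOneSpectrum (𝓞 K)) :
    AddSubgroup (base W (v.adicCompletion K)).toAffine.Point :=
  AddSubgroup.closure {P | ∀ x y h, P = Affine.Point.some x y h →
    1 < Valued.v x ∨ Valued.v (W.a₁ * y - (3 * x ^ 2 + 2 * W.a₂ * x + W.a₄)) = 1 ∨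
      Valued.v (2 * y + W.a₁ * x + W.a₃) = 1}

/-- The Tamagawa number `c_v = [E(K_v) : E⁰(K_v)]` of a minimal equation. -/
noncomputable def c (W : WeierstrassCurve ℤ) (v : HeightOneSpectrum (𝓞 K)) : ℕ :=
  (nonsing W v).index

end

section

variable (K : Type) [Field K] [NumberField K]

/-- The product of the Tamagawa numbers. -/
noncomputable def Tam (W : WeierstrassCurve ℤ) : ℕ := ∏ᶠ v : HeightOneSpectrum (𝓞 K), c W v

/-- The order of the torsion subgroup of `W(K)`. -/
noncomputable def torsOrder (W : WeierstrassCurve ℤ) : ℕ :=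
  Nat.card (AddCommGroup.torsion (base W K).toAffine.Point)

/-- The 2-primary part of the Tate-Shafarevich group over `K`. -/
noncomputable abbrev Sha2 (W : WeierstrassCurve ℤ) : AddSubgroup (Sha (base W K)) :=
  AddCommGroup.primaryComponent (Sha (base W K)) 2

/-- `L` is the L-function of the minimal equation `W` over `K`: it is entire and it is given by the
Euler product for `Re s > 3/2`. -/
def IsL (W : WeierstrassCurve ℤ) (L : ℂ → ℂ) : Prop :=
  Differentiable ℂ L ∧ ∀ s : ℂ, 3 / 2 < s.re → HasProd (factor (K := K) W s) (L s)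

end

/-- `4 x³ + b₂ x² + 2 b₄ x + b₆ = (2 y + a₁ x + a₃)²` at the points of the curve. -/
def cubic (W : WeierstrassCurve ℤ) (x : ℝ) : ℝ :=
  4 * x ^ 3 + W.b₂ * x ^ 2 + 2 * W.b₄ * x + W.b₆

/-- The real period `∫_{W(ℝ)} |dx / (2y + a₁x + a₃)|`. -/
noncomputable def realPeriod (W : WeierstrassCurve ℤ) : ℝ :=
  2 * ∫ x in {x : ℝ | 0 < cubic W x}, 1 / √(cubic W x)

/-- The order of the Tate-Shafarevich group predicted by the formula in rank zero for the curve `W` over
a real quadratic field `K` (there are two real places, with the same period), for the value `l` of the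
L-function at `s = 1`: `l √|disc K| #W(K)_tors² / (Ω² ∏ c_v)`. -/
noncomputable def anOrder (K : Type) [Field K] [NumberField K] (W : WeierstrassCurve ℤ) (l : ℂ) : ℂ :=
  l * (Real.sqrt |(discr K : ℝ)| : ℝ) * (torsOrder K W : ℂ) ^ 2 /
    ((realPeriod W : ℂ) ^ 2 * (Tam K W : ℂ))

/-- The 2-part of the strong conjecture of Birch and Swinnerton-Dyer for the curve `W` over a real
quadratic field `K`, in the case that the rank is zero and `Ш[2^∞]` is a vector space of dimension
`2 m` over the field with two elements: the equation `W` is minimal at all the finite places, `W(K)` is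
finite, `Ш(W/K)[2^∞]` is killed by two and has order `4 ^ m`, `L(W/K, s)` is entire, `L(W/K, 1) ≠ 0`,
and the predicted order of `Ш` is a rational number with 2-adic valuation `2 m`. -/
def TwoPart (K : Type) [Field K] [NumberField K] (W : WeierstrassCurve ℤ) (m : ℕ) : Prop :=
  (∀ v : HeightOneSpectrum (𝓞 K), MinimalAt W v) ∧ Finite (base W K).toAffine.Point ∧
  (∀ x : Sha2 K W, 2 • x = 0) ∧ Nat.card (Sha2 K W) = 4 ^ m ∧
  {v : HeightOneSpectrum (𝓞 K) | c W v ≠ 1}.Finite ∧ 0 < Tam K W ∧ 0 < torsOrder K W ∧
  0 < realPeriod W ∧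
  ∃ (L : ℂ → ℂ) (z : ℚ), IsL K W L ∧ L 1 ≠ 0 ∧ anOrder K W (L 1) = z ∧
    z ≠ 0 ∧ padicValRat 2 z = 2 * m

/-- The twist `E_{-n}` of `X_0(15)` by `-n`, `n ≡ 3` modulo `4`: `y² + x y = x³ - ((7 m + 1)/4) x² - 9 m² x`,
`m = -n`. -/
def E (n : ℕ) : WeierstrassCurve ℤ := ⟨1, -((7 * (-(n : ℤ)) + 1) / 4), 0, -(9 * (-(n : ℤ)) ^ 2), 0⟩

/-- `K` is the quadratic field `ℚ(√d)`. -/
def IsQuad (d : ℕ) (K : Type) [Field K] [NumberField K] : Prop :=
  Module.finrank ℚ K = 2 ∧ ∃ x : K, x ^ 2 = (d : K)

/-- The class of the `n`. -/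
def Twist (n : ℕ) : Prop := Squarefree n ∧ (n % 60 = 23 ∨ n % 60 = 47)

/-- The class of the `d`: `2` is unramified in `ℚ(√d)`, `3` and `5` split. -/
def Disc (d : ℕ) : Prop := Squarefree d ∧ d % 12 = 1 ∧ (d % 5 = 1 ∨ d % 5 = 4)

/-- The number of the prime factors of `n` that are inert in `ℚ(√d)`. -/
def inert (n d : ℕ) : ℕ := (n.primeFactors.filter fun p => jacobiSym d p = -1).card

/-- The number of the primes that are ramified in `ℚ(√d)` plus the number of the inert prime factors
of `n`. -/
def dim (n d : ℕ) : ℕ := d.primeFactors.card + inert n d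

/-- The exponent: `#Ш(E_{-n}/ℚ(√d))[2^∞] = 4 ^ (expo n d)` if `Holds n d`. -/
def expo (n d : ℕ) : ℕ := dim n d - 2

/-- The 2-part of the conjecture of Birch and Swinnerton-Dyer for `E_{-n}` over `ℚ(√d)`, with
`#Ш(E_{-n}/ℚ(√d))[2^∞] = 4 ^ (expo n d)`. -/
def Holds (n d : ℕ) : Prop := 2 ≤ dim n d ∧
  ∀ (K : Type) [Field K] [NumberField K], IsQuad d K → TwoPart K (E n) (expo n d)

/-- the limit `(1 - 1/2) (1 - 1/4) (1 - 1/8) ⋯` -/
noncomputable def eta : ℝ := ∏' i : ℕ, (1 - (1 / 2 : ℝ) ^ (i + 1))

/-- `log log X` -/
noncomputable def LL (X : ℕ) : ℝ := Real.log (Real.log X)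

/-- the number of the `m ≤ X` with the property `P` -/
noncomputable def count (P : ℕ → Prop) (X : ℕ) : ℕ := ((Finset.Icc 1 X).filter fun m => P m).card

/-- among the numbers `m ≤ X` with the property `P`, the proportion of those with the property `Q X m`
tends to `δ` -/
def HasDens (P : ℕ → Prop) (Q : ℕ → ℕ → Prop) (δ : ℝ) : Prop :=
  Tendsto (fun X : ℕ => (count (fun m => P m ∧ Q X m) X : ℝ) / (count P X : ℝ)) atTop (𝓝 δ)

/-- The distribution of the vector with the components `(g₀ + g_j) / 2`, `j` in `J`, where `g₀` and the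
`g_j` are independent standard normal variables. -/
noncomputable def Normal (J : Type) [Fintype J] : Measure (J → ℝ) :=
  (Measure.pi fun _ : Option J => gaussianReal 0 1).map fun g j => (g none + g (some j)) / 2

/-- The joint Gaussian law of the exponents of the orders of the groups `Ш(E_{-n}/ℚ(√d))[2^∞]` for any
finite set of real quadratic fields, and the densities of their orderings. -/
theorem result :
    (∀ 𝒟 : Finset ℕ, 𝒟.Nonempty → (∀ d ∈ 𝒟, Disc d ∧ 1 < d) →
      (∀ A : Set (𝒟 → ℝ), MeasurableSet A → Normal 𝒟 (frontier A) = 0 →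
        HasDens (fun n => Twist n ∧ ∀ d ∈ 𝒟, n.Coprime d)
          (fun X n => (∀ d ∈ 𝒟, Holds n d) ∧
            (fun d : 𝒟 => ((expo n d : ℝ) - LL X / 2) / √(LL X)) ∈ A)
          (eta ^ (𝒟.card + 1) * (Normal 𝒟).real A)) ∧
      (∀ σ : Fin 𝒟.card ≃ 𝒟,
        HasDens (fun n => Twist n ∧ ∀ d ∈ 𝒟, n.Coprime d)
          (fun _ n => (∀ d ∈ 𝒟, Holds n d) ∧ StrictMono fun i => expo n (σ i))
          (eta ^ (𝒟.card + 1) / (Nat.factorial 𝒟.card : ℝ)))) ∧
    0.2887 < eta ∧ eta < 0.2889 :=
  Pool.Agent.N856.QL.Fin.mainA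

end Pool.Agent.Results.MP_78d38b_nt.JointLawOfOrders
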