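import Pool.Agent.N818.SN.Dens
import Pool.Agent.N818.SN.PartsP

/-!
# The joint law of the 2-primary parts of `Ш` for the six curves of the isogeny class of the twists of the
# non-CM curve `X_0(24)`

`n` runs through the squarefree numbers `n ≡ 11 mod 24` (any number of prime factors), and
`E 0 n, ..., E 5 n` are the curve `y² = x (x + n) (x - 3 n)`, the quadratic twist by `-n` of `X_0(24)`,
and the five curves isogenous to it (isogenies of degree `2, 4, 8`). With no hypothesis on ranks or
Tate-Shafarevich groups, for every `n` such that the ideal class group of `ℚ(√-n)` has no element of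
order four:
* the six L-functions are equal, entire and do not vanish at `s = 1`, the six groups of rational points
  are finite, and `Ш(E_i/ℚ)[2^∞] ≅ (ℤ/2)^(e_i(n))`, where `e_i(n)` is `0` for `i = 0, 1` and for
  `i = 2, 3, 4, 5` it is the number of the prime factors of `n` modulo which `-3`, `3`, `-2`, `2` is not
  a square, less one for `-3` and for `2`;
* these `n` have the natural density `η = ∏_{i ≥ 1} (1 - 2^{-i}) = 0.2888...` in the class, and on this
  set the orders of the four groups `Ш(E_i/ℚ)[2^∞]`, `i = 2, 3, 4, 5`, satisfy a joint Gaussian law: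
  every nontrivial linear combination of their logarithms to the base two, with the coefficients
  `w_2, ..., w_5`, has the mean `(∑ w_i) / 2 · log log X`, the variance
  `((∑ w_i)² + ∑ w_i²) / 4 · log log X` and a normal limit law; so the covariance matrix is
  `(log log X / 4) (I + J)`, where all the entries of `J` are one, and the four logarithms are pairwise
  correlated with the correlation `1/2`.

Proof: see `Pool/Agent/N818/SN` and the header of `LargeShaIsogenousX24`; the law is the independence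
of the regularity of the Rédei matrix from the numbers of the prime factors in the classes modulo `24`
(helper323, from helper916's proof of the density) together with the theorem of Erdős and Kac for these
numbers in an arithmetic progression of squarefree numbers (helpers 160, 558, 421).
Joint work of helpers 818, 46, 73, 87, 160, 163, 216, 271, 323, 433, 455, 457, 507, 558, 559, 572, 588,
591, 592, 644, 681, 692, 721, 832, 897, and of the authors of `TwoPartTwistsX24`.
-/

set_option autoImplicit false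

open WeierstrassCurve MeasureTheory Filter Topology Finset

namespace Pool.Agent.Results.MP_78d38b_nt.LawOfShaX24

open scoped Classical

open Pool.Agent.TH841.SH.D (Sha)

/-- The class: `n` is squarefree and `n ≡ 11 mod 24`. -/
def Family (n : ℕ) : Prop := Squarefree n ∧ n % 24 = 11

/-- The six curves `y² = x³ + a₂ x² + a₄ x`. The first one is `y² = x (x + n) (x - 3 n)`, the quadratic
twist by `-n` of `X_0(24) : y² = x (x - 1) (x + 3)`. The curves with `i = 1, 2, 3` are its quotients by
the subgroups of order two generated by `(-n, 0)`, `(0, 0)`, `(3 n, 0)`; the curves with `i = 4, 5` are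
the quotients of the curve with `i = 1`, `y² = x (x + n) (x + 9 n)`, by those generated by `(-n, 0)` and
`(-9 n, 0)`. -/
def E (i : Fin 6) (n : ℕ) : WeierstrassCurve ℤ :=
  (![⟨0, -2 * n, 0, -3 * n ^ 2, 0⟩, ⟨0, 10 * n, 0, 9 * n ^ 2, 0⟩, ⟨0, n, 0, n ^ 2, 0⟩,
    ⟨0, -14 * n, 0, n ^ 2, 0⟩, ⟨0, -14 * n, 0, 81 * n ^ 2, 0⟩, ⟨0, 34 * n, 0, n ^ 2, 0⟩] :
    Fin 6 → WeierstrassCurve ℤ) i

/-- The number of the prime factors `p` of `n` modulo which `c` is not a square. -/
noncomputable def ν (c : ℤ) (n : ℕ) : ℕ :=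
  (n.primeFactors.filter fun p => ¬ IsSquare (c : ZMod p)).card

/-- The exponents (`ν (-3) n` and `ν 2 n` are positive). -/
noncomputable def e (i : Fin 6) (n : ℕ) : ℕ :=
  (![0, 0, ν (-3) n - 1, ν 3 n, ν (-2) n, ν 2 n - 1] : Fin 6 → ℕ) i

/-- The curve given by the equation of `W` over the ring `R`. -/
abbrev base (W : WeierstrassCurve ℤ) (R : Type) [CommRing R] : WeierstrassCurve R :=
  W.map (Int.castRingHom R)

/-- `L` is the entire continuation of the L-function of the curve `W` over `ℚ` (the L-series is that of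
Mathlib). -/
def IsL (W : WeierstrassCurve ℤ) (L : ℂ → ℂ) : Prop :=
  Differentiable ℂ L ∧ ∀ s : ℂ, 2 < s.re → L s = (base W ℚ).LSeries s

/-- The 2-primary part of `Ш(W/ℚ)`. -/
def ShaTwo (W : WeierstrassCurve ℤ) : Set (Sha (base W ℚ)) := {x | ∃ j : ℕ, 2 ^ j • x = 0}

/-- The ideal class group of `ℚ(√-n)` has no element of order four. -/
def NoOrderFour (n : ℕ) : Prop :=
  ∀ (K : Type) [Field K] [NumberField K], Module.finrank ℚ K = 2 → (∃ s : K, s ^ 2 = -(n : K)) →
    ∀ c : ClassGroup (NumberField.RingOfIntegers K), orderOf c ≠ 4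

/-- `η = ∏_{i ≥ 1} (1 - 2^{-i})` -/
noncomputable def eta : ℝ := ∏' i : ℕ, (1 - (1 / 2 : ℝ) ^ (i + 1))

/-- The group `E_i(ℚ)` is finite and `Ш(E_i/ℚ)[2^∞] ≅ (ℤ/2)^(e_i(n))`. -/
def ExactSha (i : Fin 6) (n : ℕ) : Prop :=
  Finite (base (E i n) ℚ).toAffine.Point ∧ Nat.card (ShaTwo (E i n)) = 2 ^ e i n ∧
    ∀ x ∈ ShaTwo (E i n), x + x = 0

/-- The logarithm to the base two of the order of `Ш(E_i/ℚ)[2^∞]`. -/
noncomputable def logSha (i : Fin 6) (n : ℕ) : ℝ := Real.logb 2 (Nat.card (ShaTwo (E i n)))

/-- The number of the `n ≤ X` of the class with the property `Q`. -/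
noncomputable def num (Q : ℕ → Prop) (X : ℕ) : ℕ := ((Icc 1 X).filter fun n => Family n ∧ Q n).card

/-- The distribution function of the standard normal law. -/
noncomputable def Φ (t : ℝ) : ℝ := (ProbabilityTheory.gaussianReal 0 1).real (Set.Iic t)

section proof

open Pool.Agent.N818.SN (Fm cls24 mem_cls NoFour noFour_iff)

lemma num_eq (Q : ℕ → Prop) (X : ℕ) : num Q X = ((cls24 X).filter Q).card := by
  unfold num
  congr 1
  ext n
  rw [mem_filter, mem_filter, mem_cls]
  exact and_assoc.symm

lemma num_of {Q Q' : ℕ → Prop} [DecidablePred Q] {X : ℕ} (h : ∀ n ∈ cls24 X, (Q n ↔ Q' n)) :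
    ((cls24 X).filter Q).card = num Q' X := by
  rw [num_eq]
  congr 1
  ext n
  simp only [mem_filter]
  exact and_congr_right fun hn => h n hn

lemma num_true (X : ℕ) : num (fun _ => True) X = (cls24 X).card := by
  rw [num_eq]
  congr 1
  ext n
  simp only [mem_filter, and_true]

lemma logSha_eq {i : Fin 6} {n : ℕ} (h : ExactSha i n) : logSha i n = e i n := by
  unfold logSha
  rw [h.2.1]
  push_cast
  rw [Real.logb_pow, Real.logb_self_eq_one (by norm_num), mul_one]

theorem exact {n : ℕ} (hn : Family n) (h : NoOrderFour n) (i : Fin 6) : ExactSha i n :=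
  Pool.Agent.N818.SN.sixSha Pool.Agent.N818.SN.parts hn ((Pool.Agent.N818.SN.noFour_iff hn).1 h) i

end proof

/-- **Main theorem**: the exact groups `Ш[2^∞]` of the six curves for the `n` without ideal classes of
order four, and the joint Gaussian law of their orders, on this set of natural density `η`. -/
theorem result :
    (∀ n : ℕ, Family n → NoOrderFour n →
      0 < ν (-3) n ∧ 0 < ν 2 n ∧ (∃ L : ℂ → ℂ, L 1 ≠ 0 ∧ ∀ i, IsL (E i n) L) ∧
      ∀ i, ExactSha i n) ∧
    Tendsto (fun X : ℕ => (num NoOrderFour X : ℝ) / (num (fun _ => True) X : ℝ)) atTop (𝓝 eta) ∧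
    (∀ w : Fin 6 → ℝ, ¬ (w 2 = 0 ∧ w 3 = 0 ∧ w 4 = 0 ∧ w 5 = 0) → ∀ t : ℝ,
      Tendsto (fun X : ℕ => (num (fun n => NoOrderFour n ∧ ∑ i, w i * logSha i n ≤
          (w 2 + w 3 + w 4 + w 5) / 2 * Real.log (Real.log X) +
            t * √(((w 2 + w 3 + w 4 + w 5) ^ 2 + (w 2 ^ 2 + w 3 ^ 2 + w 4 ^ 2 + w 5 ^ 2)) / 4 *
              Real.log (Real.log X))) X : ℝ) / (num (fun _ => True) X : ℝ)) atTop
        (𝓝 (eta * Φ t))) ∧
    0.2887 < eta ∧ eta < 0.2889 := by
  have H := Pool.Agent.N818.SN.parts
  have hb := Pool.Agent.N916.GB.eta_bounds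
  refine ⟨fun n hn h4 => ?_, ?_, fun w hw t => ?_, hb.1, hb.2⟩
  · obtain ⟨L, y, h1, h2, h3⟩ := Pool.Agent.N818.SN.six H (n := n) hn
    have hQ := (Pool.Agent.N818.SN.noFour_iff hn).1 h4
    refine ⟨Pool.Agent.N818.SN.nsq3_pos hn, Pool.Agent.N818.SN.nsq2_pos hn,
      ⟨L, h2 ?_, fun i => (h3 i).2.1⟩, fun i => exact hn h4 i⟩
    rintro rfl
    exact absurd (h1.2 hQ) (by decide)
  · have h := Pool.Agent.N818.SN.densE Pool.Agent.N818.SN.amf Pool.Agent.N818.SN.gl4 0
    refine h.congr fun X => ?_
    rw [num_true]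
    exact congrArg₂ (fun a b : ℕ => (a : ℝ) / (b : ℝ))
      (num_of fun n _ => ⟨fun h => h.1, fun h => ⟨h, fun i _ => Nat.zero_le _⟩⟩) rfl
  · have h := Pool.Agent.N818.SN.lawE Pool.Agent.N818.SN.amf Pool.Agent.N818.SN.gl4 w hw t
    refine h.congr fun X => ?_
    rw [num_true]
    refine congrArg₂ (fun a b : ℕ => (a : ℝ) / (b : ℝ)) (num_of fun n hn => ?_) rfl
    refine and_congr_right fun h4 => ?_
    have hF : Family n := (Pool.Agent.N818.SN.mem_cls.1 hn).2
    have e1 : ∑ i, w i * (Pool.Agent.N818.SN.ex i n : ℝ) = ∑ i, w i * logSha i n :=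
      sum_congr rfl fun i _ => by
        rw [logSha_eq (exact hF h4 i)]
        rfl
    rw [e1]

end Pool.Agent.Results.MP_78d38b_nt.LawOfShaX24
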