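import Pool.Agent.N875.K15.Fin
import Pool.Agent.N871.K15.Inf

/-!
# The 2-part of the strong conjecture of Birch and Swinnerton-Dyer for `X_0(15)` over a positive
# proportion of all quadratic fields, real and imaginary

`E` is `X_0(15)`, the elliptic curve `y² + x y = x³ - 2 x² - 9 x` of conductor `15` (`15a1` in the tables
of Cremona, `y² = x (x + 9) (x - 16)`), which has no complex multiplication. `K` runs over ALL the
quadratic fields, real and imaginary, with no condition on the behaviour of the primes `2`, `3`, `5`,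
except `ℚ(i)` and `ℚ(√5)`. Let `t` be the number of the primes `≠ 5` that ramify in `K`, `δ = 2` if `K` is
real and `5` splits in `K`, and `δ = 1` otherwise, and let
`z = L(E/K, 1) √|disc K| #E(K)_tors² / (Ω ∏ c_v)`, which is zero or the order of `Ш(E/K)` according to the
conjecture. Let `E^K` be the quadratic twist of `E` by `K`, a curve over `ℚ`. With no hypothesis on the
rank or on `Ш` we prove, for all these `K`:
* the equation of `E` is minimal at all the finite places of `K`, `L(E/K, s)` is entire, `#E(K)_tors = 8`,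
  and `∏ c_v` is the product of `4`, `4`, `2` if `3` is split, inert, ramified, and of `16`, `4`, `8` if
  `5` is split, inert, ramified;
* `z = 4 ^ (t - δ) y²` with an integer `y`, and `y` is odd if and only if `E^K(ℚ)` is finite and
  `Ш(E^K/ℚ)` has no element of order two; if `K` is imaginary, `3` is not inert and `5` is not split,
  this is so if and only if the class group of `K` has no element of order four;
* in this case the sign of the functional equation is `+1`, `E(K)` is finite, `L(E/K, 1) ≠ 0` and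
  `Ш(E/K)[2^∞] = Ш(E/K)[2]` is a vector space over `𝔽₂` of dimension `2 (t - δ)`, and its order is
  the 2-part of `z`: the 2-part of the conjecture. Otherwise this is false.
* The proportion of the `K` for which this is so, among all the quadratic fields ordered by the absolute
  value of the discriminant, is exactly `η / 2 = 0.144…`, `η = ∏_{i ≥ 1} (1 - 2^{-i})`; it is `η` among those
  with sign `+1`, and it is the same for the `K` with `#Ш(E/K)[2^∞] ≥ 4 ^ B`, for every `B`. For every
  `k` there are infinitely many real and infinitely many imaginary `K` with `Ш(E/K)[2^∞]` of order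
  `4 ^ k`.

Proof. A complete 2-descent over `K` (`Pool/Agent/N875/K15`): all the points of order two are rational; if
`E^K` has no 2-Selmer classes except those of the points of order two, then all the classes over `K` are
classes of pairs of rational numbers, by the norm; the local images are found at all the places (`2`, `3`
and `5` may be split, inert or ramified), and the classes are counted: there are `4 ^ (t + 1 - δ)`. The
exponent of `Ш(E/K)[2^∞]` is bounded by the comparison with the groups of `E` and `E^K` over `ℚ`. The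
central value `L(E/K, 1) = L(E, 1) L(E^K, 1)` is known exactly by the work on the twists of `X_0(15)`
of many helpers (see `TwoPartTwistsX15` of `MP_9c97e9_nt`), and the density is that of
`Pool/Agent/N916/PQ`. A special case (imaginary fields, `2` unramified, `3` split, `5` inert) was
`TwoPartX15Imaginary` of helper873.
-/

set_option autoImplicit false
set_option linter.style.haveILetI false

open NumberField IsDedekindDomain WeierstrassCurve MeasureTheory Filter Topology Module
open NumberField.InfinitePlace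

namespace Pool.Agent.Results.MP_78d38b_nt.ShaX15Quadratic

open scoped Classical

open Pool.Agent.TH841.NF.D (Sha)

/-- The curve given by the equation of `W` over the ring `R`. -/
abbrev base (W : WeierstrassCurve ℤ) (R : Type) [CommRing R] : WeierstrassCurve R :=
  W.map (Int.castRingHom R)

/-- The number of the affine points `(x, y)` over the ring `R`. -/
noncomputable def pts (W : WeierstrassCurve ℤ) (R : Type) [CommRing R] : ℕ :=
  Nat.card {P : R × R // (base W R).toAffine.Equation P.1 P.2}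

section

variable {K : Type} [Field K] [NumberField K]

/-- `a_v = N v + 1 - #W(k_v)`, the points over the residue field `k_v` counted with the point at
infinity. -/
noncomputable def a (W : WeierstrassCurve ℤ) (v : HeightOneSpectrum (𝓞 K)) : ℤ :=
  (Ideal.absNorm v.asIdeal : ℤ) - pts W (𝓞 K ⧸ v.asIdeal)

/-- The Euler factor of `L(W/K, s)` at `v` : `(1 - a_v N v^(-s) + N v^(1 - 2 s))⁻¹` if the
discriminant is a unit at `v`, and `(1 - a_v N v^(-s))⁻¹` otherwise. -/
noncomputable def factor (W : WeierstrassCurve ℤ) (s : ℂ) (v : HeightOneSpectrum (𝓞 K)) : ℂ :=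
  (1 - (a W v : ℂ) * (Ideal.absNorm v.asIdeal : ℂ) ^ (-s) +
    if ((W.Δ : ℤ) : 𝓞 K) ∈ v.asIdeal then 0 else (Ideal.absNorm v.asIdeal : ℂ) ^ (1 - 2 * s))⁻¹

/-- The equation is minimal at the finite place `v` of `K`: no change of variables over `K` that
keeps the coefficients integral at `v` decreases the valuation of the discriminant. -/
def MinimalAt (W : WeierstrassCurve ℤ) (v : HeightOneSpectrum (𝓞 K)) : Prop :=
  ∀ C : VariableChange K, v.valuation K (C • base W K).a₁ ≤ 1 →
    v.valuation K (C • base W K).a₂ ≤ 1 → v.valuation K (C • base W K).a₃ ≤ 1 →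
    v.valuation K (C • base W K).a₄ ≤ 1 → v.valuation K (C • base W K).a₆ ≤ 1 →
    v.valuation K (C • base W K).Δ ≤ v.valuation K (base W K).Δ

/-- `E⁰(K_v)`, the group of the points of `W` over the completion `K_v` with nonsingular reduction:
the points `(x, y)` where `x` is not integral, or one of the partial derivatives of
`y² + a₁ x y + a₃ y - x³ - a₂ x² - a₄ x - a₆` is a unit at `(x, y)`, and the point at infinity. -/
noncomputable def nonsing (W : WeierstrassCurve ℤ) (v : HeightOneSpectrum (𝓞 K)) :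
    AddSubgroup (base W (v.adicCompletion K)).toAffine.Point :=
  AddSubgroup.closure {P | ∀ x y h, P = Affine.Point.some x y h →
    1 < Valued.v x ∨ Valued.v (W.a₁ * y - (3 * x ^ 2 + 2 * W.a₂ * x + W.a₄)) = 1 ∨
      Valued.v (2 * y + W.a₁ * x + W.a₃) = 1}

/-- The Tamagawa number `c_v = [E(K_v) : E⁰(K_v)]` of a minimal equation. -/
noncomputable def c (W : WeierstrassCurve ℤ) (v : HeightOneSpectrum (𝓞 K)) : ℕ :=
  (nonsing W v).index

end

section

variable (K : Type) [Field K] [NumberField K]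

/-- The product of the Tamagawa numbers. -/
noncomputable def Tam (W : WeierstrassCurve ℤ) : ℕ := ∏ᶠ v : HeightOneSpectrum (𝓞 K), c W v

/-- The order of the torsion subgroup of `W(K)`. -/
noncomputable def torsOrder (W : WeierstrassCurve ℤ) : ℕ :=
  Nat.card (AddCommGroup.torsion (base W K).toAffine.Point)

/-- The 2-primary part of the Tate-Shafarevich group over `K`. -/
noncomputable abbrev Sha2 (W : WeierstrassCurve ℤ) : AddSubgroup (Sha (base W K)) :=
  AddCommGroup.primaryComponent (Sha (base W K)) 2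

/-- `L` is the L-function of the minimal equation `W` over `K`: it is entire and it is given by the
Euler product for `Re s > 3/2`. -/
def IsL (W : WeierstrassCurve ℤ) (L : ℂ → ℂ) : Prop :=
  Differentiable ℂ L ∧ ∀ s : ℂ, 3 / 2 < s.re → HasProd (factor (K := K) W s) (L s)

end

/-- `4 x³ + b₂ x² + 2 b₄ x + b₆ = (2 y + a₁ x + a₃)²` at the points of the curve. -/
def cubic (W : WeierstrassCurve ℤ) (x : ℝ) : ℝ :=
  4 * x ^ 3 + W.b₂ * x ^ 2 + 2 * W.b₄ * x + W.b₆

/-- The real period `∫_{W(ℝ)} |ω|` of `ω = dx / (2y + a₁x + a₃)`. -/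
noncomputable def realPeriod (W : WeierstrassCurve ℤ) : ℝ :=
  2 * ∫ x in {x : ℝ | 0 < cubic W x}, 1 / √(cubic W x)

/-- `Λ` is the lattice of periods of the differential `ω = dx / (2y + a₁x + a₃)` of the complex curve
`W`. -/
def IsPeriodLattice (W : WeierstrassCurve ℤ) (Λ : PeriodPair) : Prop :=
  Λ.g₂ = (W.c₄ : ℂ) / 12 ∧ Λ.g₃ = (W.c₆ : ℂ) / 216

/-- Twice the area of a fundamental parallelogram of the lattice: the period at a complex place. -/
noncomputable def complexPeriod (Λ : PeriodPair) : ℝ := 2 * |((starRingEnd ℂ) Λ.ω₁ * Λ.ω₂).im|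

section

variable (K : Type) [Field K] [NumberField K]

/-- The product `Ω` of the periods of `W` over the real and the complex places of `K`. -/
noncomputable def Om (W : WeierstrassCurve ℤ) (Λ : PeriodPair) : ℝ :=
  realPeriod W ^ nrRealPlaces K * complexPeriod Λ ^ nrComplexPlaces K

/-- The order of the Tate-Shafarevich group predicted by the formula in rank zero for the curve `W` over
the number field `K`, for the value `l` of the L-function at `s = 1`:
`l √|disc K| #W(K)_tors² / (Ω ∏ c_v)`. -/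
noncomputable def anOrder (W : WeierstrassCurve ℤ) (l : ℂ) (Λ : PeriodPair) : ℂ :=
  l * (Real.sqrt |(discr K : ℝ)| : ℝ) * (torsOrder K W : ℂ) ^ 2 / ((Om K W Λ : ℂ) * (Tam K W : ℂ))

/-- The 2-part of the strong conjecture of Birch and Swinnerton-Dyer for the curve `W` over the number
field `K`, in the case that the rank is zero and `Ш[2^∞]` is a vector space of dimension `2 k`
over the field with two elements: the equation `W` is minimal at all the finite places, `W(K)` is finite,
`Ш(W/K)[2^∞]` is killed by two and has order `4 ^ k`, `L(W/K, s)` is entire, `L(W/K, 1) ≠ 0`, and the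
predicted order of `Ш` is a rational number with 2-adic valuation `2 k`. -/
def TwoPart (W : WeierstrassCurve ℤ) (k : ℕ) : Prop :=
  (∀ v : HeightOneSpectrum (𝓞 K), MinimalAt W v) ∧ Finite (base W K).toAffine.Point ∧
  (∀ x : Sha2 K W, 2 • x = 0) ∧ Nat.card (Sha2 K W) = 4 ^ k ∧
  {v : HeightOneSpectrum (𝓞 K) | c W v ≠ 1}.Finite ∧ 0 < Tam K W ∧ 0 < torsOrder K W ∧
  ∃ (L : ℂ → ℂ) (z : ℚ), IsL K W L ∧ L 1 ≠ 0 ∧ (∃ Λ : PeriodPair, IsPeriodLattice W Λ) ∧
    (∀ Λ : PeriodPair, IsPeriodLattice W Λ → 0 < Om K W Λ ∧ anOrder K W (L 1) Λ = z) ∧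
    z ≠ 0 ∧ padicValRat 2 z = 2 * k

/-- The number `t` of the primes `≠ 5` that ramify in `K`. -/
noncomputable def ram : ℕ := ((discr K).natAbs.primeFactors.erase 5).card

/-- `δ = 2` if `K` is real and `5` splits in `K`, and `δ = 1` otherwise. -/
noncomputable def delta : ℕ := if 0 < discr K ∧ jacobiSym (discr K) 5 = 1 then 2 else 1

/-- The class group of `K` has no element of order four. -/
def NoOrderFour : Prop := ∀ c : ClassGroup (𝓞 K), c ^ 4 = 1 → c ^ 2 = 1

end

/-- The curve `X_0(15) : y² + x y = x³ - 2 x² - 9 x`. -/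
def E : WeierstrassCurve ℤ := ⟨1, -2, 0, -9, 0⟩

/-- The quadratic twist of `E` by `ℚ(√D)`: `y² = x (x + 9 D) (x - 16 D)`. -/
def twist (D : ℤ) : WeierstrassCurve ℤ := ⟨0, -7 * D, 0, -144 * D ^ 2, 0⟩

/-- The twist has finitely many points over `ℚ` and its Tate-Shafarevich group over `ℚ` has no element of
order two. -/
def NoSelmer (D : ℤ) : Prop :=
  Finite (base (twist D) ℚ).toAffine.Point ∧ ∀ x : Sha (base (twist D) ℚ), 2 • x = 0 → x = 0

/-- The product of the Tamagawa numbers of `E` over the quadratic field of discriminant `D`: the part of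
`3` is `4`, `4`, `2` if `3` is split, inert, ramified, and the part of `5` is `16`, `4`, `8`. -/
def tamValue (D : ℤ) : ℕ := (if (3 : ℤ) ∣ D then 2 else 4) *
  (if (5 : ℤ) ∣ D then 8 else if jacobiSym D 5 = 1 then 16 else 4)

/-- The sign of the functional equation of `L(E/K, s)`: a factor `-1` if `K` is imaginary, one if `3` is
inert in `K`, and one if `5` does not split in `K`. -/
def sign (D : ℤ) : ℤ := (if D < 0 then -1 else 1) * (if D % 3 = 2 then -1 else 1) *
  (if jacobiSym D 5 = 1 then 1 else -1)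

/-- The statement for the quadratic field `K`. -/
def Criterion (K : Type) [Field K] [NumberField K] : Prop :=
  (∀ v : HeightOneSpectrum (𝓞 K), MinimalAt E v) ∧
  {v : HeightOneSpectrum (𝓞 K) | c E v ≠ 1}.Finite ∧
  Tam K E = tamValue (discr K) ∧ torsOrder K E = 8 ∧
  (∃ (L : ℂ → ℂ) (y : ℤ), IsL K E L ∧ (∃ Λ : PeriodPair, IsPeriodLattice E Λ) ∧
    (∀ Λ : PeriodPair, IsPeriodLattice E Λ → 0 < Om K E Λ ∧
      anOrder K E (L 1) Λ = ((4 ^ ram K / 4 ^ delta K * (y : ℚ) ^ 2 : ℚ) : ℂ)) ∧
    (Odd y ↔ NoSelmer (discr K))) ∧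
  (discr K < 0 → discr K % 3 ≠ 2 → jacobiSym (discr K) 5 ≠ 1 →
    (NoSelmer (discr K) ↔ NoOrderFour K)) ∧
  (NoSelmer (discr K) → sign (discr K) = 1) ∧
  (NoSelmer (discr K) ↔ delta K ≤ ram K ∧ TwoPart K E (ram K - delta K))

/-- `K` is a quadratic field. -/
def IsQuad (K : Type) [Field K] [NumberField K] : Prop := finrank ℚ K = 2

/-- `D` is the discriminant of a quadratic field. -/
def IsDisc (D : ℤ) : Prop := ∃ (K : Type) (_ : Field K) (_ : NumberField K), IsQuad K ∧ discr K = D

/-- `D` is the discriminant of a quadratic field `K` with `t = δ + k`, and the 2-part of the conjecture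
holds for `E` over `K`, with `Ш(E/K)[2^∞]` a vector space of dimension `2 k` over the field with two
elements. -/
def Holds (D : ℤ) (k : ℕ) : Prop := IsDisc D ∧ ∀ (K : Type) [Field K] [NumberField K], IsQuad K →
  discr K = D → ram K = delta K + k ∧ TwoPart K E k

/-- the number of the `D`, `|D| ≤ X`, with `Q D` -/
noncomputable def count (Q : ℤ → Prop) (X : ℕ) : ℕ := Nat.card {D : ℤ // |D| ≤ X ∧ Q D}

/-- `η = ∏_{i ≥ 1} (1 - 2^{-i})` -/
noncomputable def eta : ℝ := ∏' i : ℕ, (1 - (1 / 2 : ℝ) ^ (i + 1))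

section proof

open Pool.Agent.N875.K17 (Qd Dm exists_m qd_of discr_Dm exists_K isDisc_iff fund_Dm fund_core ct)
open Pool.Agent.N875.K15 (Hyps tt dd)
open Pool.Agent.N809.PQ (Sg15 w15)

lemma IsL.unique {K : Type} [Field K] [NumberField K] {W : WeierstrassCurve ℤ} {f g : ℂ → ℂ}
    (hf : IsL K W f) (hg : IsL K W g) : f = g := by
  have hfa : AnalyticOnNhd ℂ f Set.univ := fun z _ => hf.1.analyticAt z
  have hga : AnalyticOnNhd ℂ g Set.univ := fun z _ => hg.1.analyticAt z
  have heq : f =ᶠ[nhds (2 : ℂ)] g := by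
    have hopen : IsOpen {s : ℂ | (3 : ℝ) / 2 < s.re} := isOpen_lt continuous_const Complex.continuous_re
    filter_upwards [hopen.mem_nhds (show (3 : ℝ) / 2 < (2 : ℂ).re by norm_num)] with s hs
    exact (hf.2 s hs).unique (hg.2 s hs)
  exact hfa.eq_of_eventuallyEq hga heq

lemma val_pow (t r : ℕ) (hr : r ≤ t) {y : ℤ} (hy : y ≠ 0) :
    padicValRat 2 (4 ^ t / 4 ^ r * (y : ℚ) ^ 2) = 2 * ((t - r : ℕ) : ℤ) + 2 * padicValInt 2 y := by
  have : Fact (Nat.Prime 2) := ⟨Nat.prime_two⟩
  have hyq : (y : ℚ) ≠ 0 := by exact_mod_cast hy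
  have h4 : (4 : ℚ) = 2 ^ 2 := by norm_num
  have h2 : ∀ m : ℕ, (4 : ℚ) ^ m ≠ 0 := fun m => pow_ne_zero m (by norm_num)
  have e2 : padicValRat 2 (2 : ℚ) = 1 := by
    have := padicValRat.self (p := 2) (by norm_num)
    exact_mod_cast this
  rw [padicValRat.mul (div_ne_zero (h2 t) (h2 r)) (pow_ne_zero 2 hyq), padicValRat.div (h2 t) (h2 r),
    padicValRat.pow, padicValRat.pow, padicValRat.pow, padicValRat.of_int, h4, padicValRat.pow, e2]
  push_cast [Nat.cast_sub hr]
  ring

lemma par_val {y : ℤ} (h : Odd y) : padicValInt 2 y = 0 := by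
  refine padicValInt.eq_zero_of_not_dvd ?_
  intro hdv
  have h5 := Int.odd_iff.1 h
  omega

lemma odd_of_val {y : ℤ} (hy : y ≠ 0) (h : padicValInt 2 y = 0) : Odd y := by
  rw [← Int.not_even_iff_odd]
  intro he
  have : Fact (Nat.Prime 2) := ⟨Nat.prime_two⟩
  have h8 := (padicValInt_dvd_iff (p := 2) 1 y).1 (by
    rw [Nat.cast_ofNat, pow_one]; exact he.two_dvd)
  rcases h8 with h8 | h8
  · exact hy h8
  · rw [h] at h8
    omega

lemma Dm_neg {m : ℤ} : Dm m < 0 ↔ m < 0 := by
  unfold Dm
  split_ifs <;> omega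

lemma Dm_pos {m : ℤ} : 0 < Dm m ↔ 0 < m := by
  unfold Dm
  split_ifs <;> omega

lemma sign_Dm (m : ℤ) : sign (Dm m) = w15 m := by
  unfold sign w15
  rw [Pool.Agent.N875.K15.mod3_Dm, Pool.Agent.N875.K15.jac_Dm]
  simp only [Dm_neg, Pool.Agent.N875.K15.jac5_iff]

/-- the criterion -/
theorem criterion (H : Hyps) (K : Type) [Field K] [NumberField K] (h2 : IsQuad K)
    (hD1 : discr K ≠ -4) (hD5 : discr K ≠ 5) : Criterion K := by
  obtain ⟨m, r, hm, h1, hr⟩ := exists_m (K := K) h2
  have hq : Qd m K r := qd_of hm h1 h2 hr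
  have hdisc : discr K = Dm m := discr_Dm hm h1 hq
  have hm1 : m ≠ -1 := by
    rintro rfl
    exact hD1 (by rw [hdisc]; rfl)
  have hm5 : m ≠ 5 := by
    rintro rfl
    exact hD5 (by rw [hdisc]; rfl)
  have hram : ram K = tt m := by
    unfold ram
    rw [hdisc, Pool.Agent.N875.K15.tt_Dm hm.ne_zero]
  have hdel : delta K = dd m := by
    unfold delta Pool.Agent.N875.K15.dd
    rw [hdisc, Pool.Agent.N875.K15.jac_Dm]
    simp only [Dm_pos]
  have hsel : NoSelmer (discr K) ↔ Sg15 m := by
    rw [hdisc]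
    exact Pool.Agent.N875.K15.sel_iff hm h1 hm1
  have hmin : ∀ v : HeightOneSpectrum (𝓞 K), MinimalAt E v := H.MIN m hm h1 K r hq
  obtain ⟨hcf, htam⟩ := H.TAM m hm h1 K r hq
  have htor : torsOrder K E = 8 := (H.TOR m hm h1 hm1 hm5 K r hq).2
  obtain ⟨L, y, hL, hy, hex, hval⟩ := Pool.Agent.N875.K15.val_main H.LPR H.TAM H.TOR H.VAL1 H.VAL
    hm h1 hm1 hm5 hq
  have hIsL : IsL K E L := hL
  have htam' : Tam K E = tamValue (discr K) := by
    unfold tamValue
    rw [hdisc, Pool.Agent.N875.K15.jac_Dm]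
    simp only [Pool.Agent.N875.K15.three_Dm, Pool.Agent.N875.K15.five_Dm]
    exact htam
  have hcf' : {v : HeightOneSpectrum (𝓞 K) | c E v ≠ 1}.Finite := hcf
  have hex' : ∃ Λ : PeriodPair, IsPeriodLattice E Λ := hex
  have hval' : ∀ Λ : PeriodPair, IsPeriodLattice E Λ → 0 < Om K E Λ ∧
      anOrder K E (L 1) Λ = ((4 ^ ram K / 4 ^ delta K * (y : ℚ) ^ 2 : ℚ) : ℂ) := by
    intro Λ hΛ
    obtain ⟨h3, h4⟩ := hval Λ hΛ
    refine ⟨h3, ?_⟩
    have h5 : (4 : ℂ) ^ dd m * anOrder K E (L 1) Λ = ((4 ^ tt m * (y : ℚ) ^ 2 : ℚ) : ℂ) := h4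
    have h6 : (4 : ℂ) ^ dd m ≠ 0 := pow_ne_zero _ (by norm_num)
    rw [hram, hdel]
    apply mul_left_cancel₀ h6
    rw [h5]
    push_cast
    field_simp
  have hyg : Odd y ↔ NoSelmer (discr K) := by rw [hsel, hy]
  have hy0 : L 1 = 0 → y = 0 := by
    intro h0
    obtain ⟨Λ, hΛ⟩ := hex'
    have h3 := (hval' Λ hΛ).2
    unfold anOrder at h3
    rw [h0] at h3
    simp only [zero_mul, zero_div] at h3
    have h4 : (4 ^ ram K / 4 ^ delta K * (y : ℚ) ^ 2 : ℚ) = 0 := by exact_mod_cast h3.symm
    have h5 : (4 ^ ram K / 4 ^ delta K : ℚ) ≠ 0 := by positivity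
    rcases mul_eq_zero.1 h4 with h6 | h6
    · exact absurd h6 h5
    · exact_mod_cast (pow_eq_zero_iff two_ne_zero).1 h6
  refine ⟨hmin, hcf', htam', htor, ⟨L, y, hIsL, hex', hval', hyg⟩, ?_, ?_, ?_, ?_⟩
  · intro h3 h4 h5
    rw [hdisc, Dm_neg] at h3
    rw [hdisc, Pool.Agent.N875.K15.mod3_Dm] at h4
    rw [hdisc, Pool.Agent.N875.K15.jac_Dm] at h5
    rw [hsel]
    exact Pool.Agent.N875.K15.cls hm hm1 h3 h4 h5 K h2 ⟨r, hr⟩
  · intro h
    rw [hdisc, sign_Dm]
    exact Pool.Agent.N809.PQ.sg15_parity hm h1 hm1 (hsel.1 h)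
  · intro hg
    have hyo := hyg.2 hg
    have hyne : y ≠ 0 := by
      rintro rfl
      exact absurd hyo (by decide)
    have hS := hsel.1 hg
    obtain ⟨hle, hk, hc⟩ := Pool.Agent.N875.K15.sha_all H hm h1 hm1 hm5 hS hq
    rw [← hram, ← hdel] at hle hc
    refine ⟨hle, hmin, (Pool.Agent.N875.K15.fin_pts hm h1 hS hq).2, hk, hc, hcf', ?_, ?_, L,
      4 ^ ram K / 4 ^ delta K * (y : ℚ) ^ 2, hIsL, fun h0 => hyne (hy0 h0), hex', hval', ?_, ?_⟩
    · rw [htam']
      unfold tamValue
      refine Nat.mul_pos ?_ ?_ <;> split_ifs <;> norm_num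
    · rw [htor]
      norm_num
    · exact mul_ne_zero (div_ne_zero (pow_ne_zero _ (by norm_num)) (pow_ne_zero _ (by norm_num)))
        (pow_ne_zero 2 (by exact_mod_cast hyne))
    · rw [val_pow _ _ hle hyne, par_val hyo]
      push_cast
      ring
  · rintro ⟨hle, -, -, -, -, -, -, -, L', z, hL', -, -, hz, hz0, hzv⟩
    rw [← hyg]
    obtain ⟨Λ, hΛ⟩ := hex'
    have e1 := (hz Λ hΛ).2
    rw [IsL.unique hL' hIsL, (hval' Λ hΛ).2] at e1
    have e2 : (4 ^ ram K / 4 ^ delta K * (y : ℚ) ^ 2 : ℚ) = z := by exact_mod_cast e1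
    have hyne : y ≠ 0 := by
      rintro rfl
      apply hz0
      rw [← e2]
      simp
    have e3 := val_pow _ _ hle hyne
    rw [e2, hzv] at e3
    refine odd_of_val hyne ?_
    have : (padicValInt 2 y : ℤ) = 0 := by linarith
    exact_mod_cast this

/-- the field of discriminant `Dm m` -/
lemma field_of {m : ℤ} (hm : Squarefree m) (h1 : m ≠ 1) : IsDisc (Dm m) := by
  obtain ⟨K, i1, i2, r, h2, hr⟩ := exists_K hm h1
  exact ⟨K, i1, i2, h2, discr_Dm hm h1 (qd_of hm h1 h2 hr)⟩

/-- the 2-part for a good `m` -/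
lemma holds_of (H : Hyps) {m : ℤ} (hm : Squarefree m) (h1 : m ≠ 1) (hm1 : m ≠ -1) (h5 : m ≠ 5)
    (hS : Sg15 m) {k : ℕ} (hk : tt m = dd m + k) : Holds (Dm m) k := by
  refine ⟨field_of hm h1, fun K _ _ h2 hD => ?_⟩
  have hD1 : discr K ≠ -4 := by
    rw [hD]
    unfold Dm
    split_ifs <;> omega
  have hD5 : discr K ≠ 5 := by
    rw [hD]
    unfold Dm
    split_ifs <;> omega
  have hsel : NoSelmer (discr K) := by
    rw [hD]
    exact (Pool.Agent.N875.K15.sel_iff hm h1 hm1).2 hS
  obtain ⟨h3, h4⟩ := (criterion H K h2 hD1 hD5).2.2.2.2.2.2.2.1 hsel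
  have hram : ram K = tt m := by
    unfold ram
    rw [hD, Pool.Agent.N875.K15.tt_Dm hm.ne_zero]
  have hdel : delta K = dd m := by
    unfold delta Pool.Agent.N875.K15.dd
    rw [hD, Pool.Agent.N875.K15.jac_Dm]
    simp only [Dm_pos]
  have e : ram K = delta K + k := by rw [hram, hdel, hk]
  refine ⟨e, ?_⟩
  have e2 : ram K - delta K = k := by omega
  rwa [e2] at h4

/-- the converse -/
lemma sel_of_holds (H : Hyps) {D : ℤ} {k : ℕ} (h : Holds D k) (h4 : D ≠ -4) (h5 : D ≠ 5) :
    Pool.Agent.N919.BS.Fund D ∧ Sg15 (Pool.Agent.N919.BS.core D) := by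
  obtain ⟨⟨K, i1, i2, h2, hD⟩, h3⟩ := h
  obtain ⟨h6, h7⟩ := h3 K h2 hD
  have hc := criterion H K h2 (by rw [hD]; exact h4) (by rw [hD]; exact h5)
  have hsel := hc.2.2.2.2.2.2.2.2 ⟨by omega, by
    have e : ram K - delta K = k := by omega
    rw [e]
    exact h7⟩
  obtain ⟨m, r, hm, h1, hr⟩ := exists_m (K := K) h2
  have hq : Qd m K r := qd_of hm h1 h2 hr
  have hdisc : discr K = Dm m := discr_Dm hm h1 hq
  have hm1 : m ≠ -1 := by
    rintro rfl
    exact h4 (by rw [← hD, hdisc]; rfl)
  rw [hdisc] at hsel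
  have hS := (Pool.Agent.N875.K15.sel_iff hm h1 hm1).1 hsel
  obtain ⟨e1, e2⟩ := fund_Dm hm
  rw [← hD, hdisc, e2]
  exact ⟨e1, hS⟩

lemma count_disc (X : ℕ) : count IsDisc X = ct (fun D => Pool.Agent.N919.BS.Fund D ∧ D ≠ 1) X := by
  unfold count Pool.Agent.N875.K17.ct
  refine Nat.card_congr (Equiv.subtypeEquivRight fun D => ?_)
  exact and_congr Iff.rfl isDisc_iff

/-- **the densities** -/
lemma dens_B (H : Hyps) (B : ℕ) :
    Tendsto (fun X : ℕ => (count (fun D => ∃ k, B ≤ k ∧ Holds D k) X : ℝ) / (count IsDisc X : ℝ))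
      atTop (𝓝 (eta / 2)) := by
  have h1 := Pool.Agent.N875.K15.dens_all (Q := fun D => ∃ k, B ≤ k ∧ Holds D k)
    {1, -4, 5} (B + 3) (fun D hD => ?_) (fun D hF hS => ?_)
  · simp only [count_disc]
    exact h1
  · obtain ⟨k, -, hk⟩ := hD
    by_cases h4 : D = -4
    · exact Or.inr (by simp [h4])
    by_cases h5 : D = 5
    · exact Or.inr (by simp [h5])
    exact Or.inl (sel_of_holds H hk h4 h5)
  · obtain ⟨hm, hDm⟩ := fund_core hF
    by_cases h1 : D = 1
    · exact Or.inr (Or.inl (by simp [h1]))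
    by_cases h4 : D = -4
    · exact Or.inr (Or.inl (by simp [h4]))
    by_cases h5 : D = 5
    · exact Or.inr (Or.inl (by simp [h5]))
    set m := Pool.Agent.N919.BS.core D with hmd
    have g1 : m ≠ 1 := by
      intro h
      rw [h] at hDm
      exact h1 hDm.symm
    have g2 : m ≠ -1 := by
      intro h
      rw [h] at hDm
      exact h4 hDm.symm
    have g3 : m ≠ 5 := by
      intro h
      rw [h] at hDm
      exact h5 hDm.symm
    by_cases hfew : D.natAbs.primeFactors.card < B + 3
    · exact Or.inr (Or.inr hfew)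
    · left
      have e1 : tt m = (D.natAbs.primeFactors.erase 5).card := by
        rw [← Pool.Agent.N875.K15.tt_Dm hm.ne_zero, hDm]
      have e2 := Finset.pred_card_le_card_erase (s := D.natAbs.primeFactors) (a := 5)
      have e3 : dd m ≤ 2 := by
        unfold Pool.Agent.N875.K15.dd
        split_ifs <;> omega
      refine ⟨tt m - dd m, by omega, ?_⟩
      have h5 := holds_of H hm g1 g2 g3 hS (k := tt m - dd m) (by omega)
      rwa [hDm] at h5

/-- one half of the fields have sign `+1` -/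
lemma dens_half : Tendsto (fun X : ℕ => (count (fun D => IsDisc D ∧ sign D = 1) X : ℝ) /
    (count IsDisc X : ℝ)) atTop (𝓝 (1 / 2)) := by
  have h1 := Pool.Agent.N875.K17.dens Pool.Agent.N875.K15.half15
    (Q := fun D => IsDisc D ∧ sign D = 1) {1} 0 (fun D hD => ?_) (fun D hF hS => ?_)
  · simp only [count_disc]
    exact h1
  · obtain ⟨⟨K, i1, i2, h2, hD⟩, hs⟩ := hD
    obtain ⟨m, r, hm, h1, hr⟩ := exists_m (K := K) h2
    have hdisc : discr K = Dm m := discr_Dm hm h1 (qd_of hm h1 h2 hr)
    obtain ⟨e1, e2⟩ := fund_Dm hm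
    rw [← hD, hdisc] at hs ⊢
    rw [sign_Dm] at hs
    left
    rw [e2]
    exact ⟨e1, hs⟩
  · obtain ⟨hm, hDm⟩ := fund_core hF
    by_cases h1 : D = 1
    · exact Or.inr (Or.inl (by simp [h1]))
    · left
      refine ⟨isDisc_iff.2 ⟨hF, h1⟩, ?_⟩
      rw [← hDm, sign_Dm]
      exact hS

lemma dens_sign (H : Hyps) (B : ℕ) :
    Tendsto (fun X : ℕ => (count (fun D => ∃ k, B ≤ k ∧ Holds D k) X : ℝ) /
      (count (fun D => IsDisc D ∧ sign D = 1) X : ℝ)) atTop (𝓝 eta) := by
  have h := (dens_B H B).div dens_half (by norm_num)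
  have e : eta / 2 / (1 / 2) = eta := by ring
  rw [e] at h
  refine h.congr' ?_
  have h0 : ∀ᶠ X : ℕ in atTop, (count IsDisc X : ℝ) ≠ 0 := by
    have h3 := dens_half.eventually (lt_mem_nhds (show (0 : ℝ) < 1 / 2 by norm_num))
    filter_upwards [h3] with X hX h4
    rw [h4, div_zero] at hX
    exact lt_irrefl _ hX
  filter_upwards [h0] with X hX
  exact div_div_div_cancel_right₀ hX _ _

lemma infinite_neg (H : Hyps) (k : ℕ) : {D : ℤ | D < 0 ∧ Holds D k}.Infinite := by
  refine (Pool.Agent.N871.K15.inf_neg k).mono ?_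
  rintro m ⟨h0, hm, h4, hS, hm1, hk⟩
  have e : Dm m = m := if_pos h4
  have := holds_of H hm (by omega) hm1 (by omega) hS hk
  rw [e] at this
  exact ⟨h0, this⟩

lemma infinite_pos (H : Hyps) (k : ℕ) : {D : ℤ | 0 < D ∧ Holds D k}.Infinite := by
  refine (Pool.Agent.N871.K15.inf_pos k).mono ?_
  rintro m ⟨h0, hm, h4, hS, h1, h5, hk⟩
  have e : Dm m = m := if_pos h4
  have := holds_of H hm h1 (by omega) h5 hS hk
  rw [e] at this
  exact ⟨h0, this⟩

end proof

/-- **Main theorem.** The statement `Criterion K` holds for all the quadratic fields `K` except `ℚ(i)` and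
`ℚ(√5)`. Among all the quadratic fields `K`, real and imaginary, ordered by the absolute value of the
discriminant, the proportion of the `K` such that the 2-part of the conjecture `TwoPart` holds for `E`
over `K`, with `Ш[2^∞]` a vector space of dimension `2 (t - δ)` over the field with two elements, is
exactly `η / 2 = 0.144…`, and `η = 0.288…` among those with sign `+1`; it is the same for the `K` with
`t - δ ≥ B`, for every `B`. For every `k` there are infinitely many real and infinitely many imaginary `K`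
with `Ш[2^∞]` of order `4 ^ k`. -/
theorem result :
    (∀ (K : Type) [Field K] [NumberField K], IsQuad K → discr K ≠ -4 → discr K ≠ 5 →
      Criterion K) ∧
    (0.2887 < eta ∧ eta < 0.2889) ∧
    (∀ B : ℕ, Tendsto (fun X : ℕ => (count (fun D => ∃ k, B ≤ k ∧ Holds D k) X : ℝ) /
      (count IsDisc X : ℝ)) atTop (𝓝 (eta / 2))) ∧
    (∀ B : ℕ, Tendsto (fun X : ℕ => (count (fun D => ∃ k, B ≤ k ∧ Holds D k) X : ℝ) /
      (count (fun D => IsDisc D ∧ sign D = 1) X : ℝ)) atTop (𝓝 eta)) ∧
    ∀ k : ℕ, {D : ℤ | D < 0 ∧ Holds D k}.Infinite ∧ {D : ℤ | 0 < D ∧ Holds D k}.Infinite := by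
  have H := Pool.Agent.N875.K15.hyps
  exact ⟨fun K _ _ h2 h4 h5 => criterion H K h2 h4 h5, Pool.Agent.N916.GB.eta_bounds,
    dens_B H, dens_sign H, fun k => ⟨infinite_neg H k, infinite_pos H k⟩⟩

end Pool.Agent.Results.MP_78d38b_nt.ShaX15Quadratic
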